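import Pool.Agent.KS6_29.HP.Final

/-!
# Randomly perturbed graphs: one sharp threshold from Hamiltonicity to paths of all lengths

Let `d n` be between `a n` and `b n` for large `n`, where `0 < a` and `b < 1/2`. There is a function
`pst`, of order `1/n`, which is a sharp threshold for the property that `G(n-d,p)` contains a linear
forest with `n-2d` edges, and which is a sharp `d`-threshold for Hamiltonicity of `H ∪ G(n,p)`, for
Hamilton-connectedness, for pancyclicity, and for the property `AllLengths` that any two vertices
are joined by paths with `3, 4, ..., n - 1` edges and every vertex lies on cycles with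
`3, 4, ..., n` edges; the same holds for all properties between Hamiltonicity and `AllLengths`.

The library theorem `Pool.Agent.Results.MP_42d591_pr.SharpHamiltonicity` is the statement for
Hamiltonicity. New: from a Hamilton cycle of `H ∪ G(n,p)` one gets, by adding a few more random
edges, Hamilton paths between any two vertices, and from these paths of all lengths.
-/

set_option autoImplicit false
open Filter Topology

namespace Pool.Agent.Results.MP_42d591_pr.PathsOfAllLengths

open Pool.Agent.KS6_29.HP
open Pool.Agent.W845.HC (SharpLF)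

theorem result (a b : ℝ) (d : ℕ → ℕ) (ha : 0 < a) (hb : b < 1 / 2)
    (hd : ∀ᶠ n : ℕ in atTop, a * n ≤ d n ∧ (d n : ℝ) ≤ b * n) :
    ∃ pst : ℕ → ℝ,
      (∃ c C : ℝ, 0 < c ∧ 0 < C ∧ ∀ᶠ n : ℕ in atTop, c / n ≤ pst n ∧ pst n ≤ C / n) ∧
      SharpLF d pst ∧
      Sharp d pst (fun _ G => G.IsHamiltonian) ∧
      Sharp d pst HamConnected ∧
      Sharp d pst Pancyclic ∧
      Sharp d pst AllLengths ∧
      ∀ P : (n : ℕ) → SimpleGraph (Fin n) → Prop,
        (∀ᶠ n in atTop, ∀ G, P n G → G.IsHamiltonian) →
        (∀ᶠ n in atTop, ∀ G, AllLengths n G → P n G) → Sharp d pst P := by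
  obtain ⟨pst, h1, h2, h3⟩ := main a b d ha hb hd
  refine ⟨pst, h1, h2, ?_, ?_, ?_, ?_, h3⟩
  · refine h3 _ (Eventually.of_forall fun n G h => h) ?_
    filter_upwards [eventually_ge_atTop 4] with n hn G hG
    exact ham_of_conn (by omega) (hG.conn hn)
  · refine h3 _ ?_ ?_
    · filter_upwards [eventually_ge_atTop 3] with n hn G hG
      exact ham_of_conn hn hG
    · filter_upwards [eventually_ge_atTop 4] with n hn G hG
      exact hG.conn hn
  · refine h3 _ ?_ ?_
    · filter_upwards [eventually_ge_atTop 3] with n hn G hG
      exact ham_of_pan hn hG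
    · filter_upwards [eventually_ge_atTop 1] with n hn G hG
      exact hG.pan hn
  · refine h3 _ ?_ (Eventually.of_forall fun n G h => h)
    filter_upwards [eventually_ge_atTop 4] with n hn G hG
    exact ham_of_conn (by omega) (hG.conn hn)

end Pool.Agent.Results.MP_42d591_pr.PathsOfAllLengths
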